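import Pool.Agent.Helper50.KP.GoalsF

/-!
MP_5a63b6_lc, packet KP-BND.
-/

set_option autoImplicit false

namespace Pool.Agent.Helper31.KP

open Pool.Agent.Helper50.KP

theorem gBND : Pool.Agent.Helper50.KP.BND := by
  intro G _ n a c
  induction n with
  | zero =>
    exact ⟨rfl, fun x hx => absurd hx (Nat.not_lt_zero x)⟩
  | succ n ih =>
    constructor
    · rw [bnd, List.length_cons, List.length_cons, ih.1]
      ring
    · intro x hx
      rcases Nat.lt_succ_iff_lt_or_eq.1 hx with h | h
      · have h1 : bi (n + 1) x = bi n x + 1 + 1 := by
          unfold bi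
          omega
        rw [h1, bnd, List.getElem?_cons_succ, List.getElem?_cons_succ]
        exact ih.2 x h
      · subst h
        have h1 : bi (x + 1) x = 0 := by
          unfold bi
          omega
        rw [h1, bnd, List.getElem?_cons_zero]

end Pool.Agent.Helper31.KP
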